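import Pool.Agent.W_448nf_h61.NJ
import Pool.Agent.W_448t8_h97.TH

/-!
MP_448cb3_co, G2, case B, window `j`: the natural parts.  The value `- F2 + 2 F4 + 13 F3` of the window
`j` of a natural part is nonnegative.  helper97.
-/

set_option autoImplicit false

namespace Pool.Agent.GaussPoset.EK

set_option linter.unusedSectionVars false

open Finset Win St Polynomial Wd Win.W4 Win.Pn
open Pool.Agent.GaussPoset.Win.SO (PN mem_PN sit_PD sit_PU vp vp_PD vp_PU)

universe u

variable {P : Type u} [Fintype P] [PartialOrder P] [DecidableEq P] {r i j : ℕ}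
variable {K : Finset P} {psi : P → P}

/-- the lower pendants of a natural part which meet the upper pendant have a common site -/
theorem NJ.DU_site (h : NJ P r j) (hj : 2 ≤ j) {t : Tops P} (hn : NatT j (t : P)) :
    ∃ s : P, ∀ p ∈ DU j (cext (j + 1) (topOf : P → Tops P) t), s ∈ sit j p := by
  classical
  obtain ⟨m, x, c, β, R⟩ := NJ.rowB h hj t
  have hU1 := NJ.UC_le h hj t
  rcases (UC j (cext (j + 1) (topOf : P → Tops P) t)).eq_empty_or_nonempty with h0 | ⟨u, hu⟩
  · refine ⟨x 0, fun p hp => ?_⟩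
    unfold DU at hp
    rw [mem_filter, h0] at hp
    obtain ⟨-, v, hv, -⟩ := hp
    exact absurd hv (notMem_empty _)
  obtain ⟨huC, huU⟩ := mem_UC.1 hu
  obtain ⟨f, hf, hsf, hUf⟩ := pend_sites h hj hn R (mem_PN.2 ⟨huC, Or.inr huU⟩)
  have key : ∀ p ∈ DU j (cext (j + 1) (topOf : P → Tops P) t), ∃ a, a + 1 ≤ m ∧
      sit j p = {x a, x (a + 1)} ∧ (a = f ∨ a + 1 = f ∨ a = f + 1) := by
    intro p hp
    have hp' := DU_sub _ _ hp
    obtain ⟨hpC, hpD⟩ := mem_DC.1 hp'
    unfold DU at hp
    rw [mem_filter] at hp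
    obtain ⟨-, v, hv, hmt⟩ := hp
    have hvu : v = u := card_le_one.1 hU1 v hv u hu
    subst hvu
    obtain ⟨a, ha, hsa, -⟩ := pend_sites h hj hn R (mem_PN.2 ⟨hpC, Or.inl hpD⟩)
    refine ⟨a, ha, hsa, ?_⟩
    rw [hsa, hsf, pair_meet R.row.inj ha hf] at hmt
    by_contra hc
    apply hmt
    omega
  rcases hUf huU with h1 | h1
  · refine ⟨x 1, fun p hp => ?_⟩
    obtain ⟨a, ha, hsa, h2⟩ := key p hp
    rw [hsa, mem_insert, mem_singleton]
    rcases h2 with h2 | h2 | h2
    · right
      rw [show a + 1 = 1 by omega]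
    · omega
    · left
      rw [show a = 1 by omega]
  · refine ⟨x f, fun p hp => ?_⟩
    obtain ⟨a, ha, hsa, h2⟩ := key p hp
    rw [hsa, mem_insert, mem_singleton]
    rcases h2 with h2 | h2 | h2
    · left
      rw [h2]
    · right
      rw [h2]
    · omega

/-- the coefficient `w3` of a natural part is zero -/
theorem NJ.nat_F3 (h : NJ P r j) (hj : 2 ≤ j) {t : Tops P} (hn : NatT j (t : P)) :
    F3 j t = 0 := by
  obtain ⟨K, psi, R⟩ := exists_red P j
  have Q := NJ.nat4 h hj R hn
  have h2 := Q.prof.mid 3 (by norm_num)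
  unfold F3 I2.w3
  apply I2.coeff_zero_of_dvd
    (a := (st j (cext (j + 1) (topOf : P → Tops P) t)).card + 1) _ (by unfold I2.bb; omega)
  rw [pow_succ', pow_two, mul_assoc]
  exact mul_dvd_mul_left _ h2

/-- THE WINDOW `j` of a natural part in the numbers of the pendants -/
theorem NJ.nat_win (h : NJ P r j) (hj : 2 ≤ j) {t : Tops P} (hn : NatT j (t : P)) :
    F2 j t = ((DC j (cext (j + 1) (topOf : P → Tops P) t)).card : ℤ) -
      (UC j (cext (j + 1) (topOf : P → Tops P) t)).card ∧
    F2 j t + F4 j t = 2 * (((DC j (cext (j + 1) (topOf : P → Tops P) t)).card : ℤ) -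
        (DU j (cext (j + 1) (topOf : P → Tops P) t)).card) +
      (D2 j (cext (j + 1) (topOf : P → Tops P) t)).card +
      2 * ((Z4 j (cext (j + 1) (topOf : P → Tops P) t)).card -
        (T4 j (cext (j + 1) (topOf : P → Tops P) t)).card : ℤ) := by
  obtain ⟨K, psi, R⟩ := exists_red P j
  have Q := NJ.nat4 h hj R hn
  have hb := NJ.st_pos h t
  have hU := NJ.UC_le h hj t
  refine ⟨?_, ?_⟩
  · have h1 := Q.al2
    rw [sum_vp] at h1
    exact h1
  · have h1 := Q.F_eq hb hU
    have h3 := NJ.nat_F3 h hj hn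
    unfold F3 at h3
    unfold F2 F4 I2.Q4
    rw [h3, mul_zero, add_zero]
    exact h1

/-- no site over which no upper pendant sits: no lower pendant meets it -/
lemma DU_zero {C : Finset P} (h : UC j C = ∅) : DU j C = ∅ := by
  classical
  unfold DU
  rw [h]
  simp

/-- THE WINDOW `j` OF A NATURAL PART for the weights `-1, 2, 13`, strong form -/
theorem NJ.nat_own2s (h : NJ P r j) (hj : 2 ≤ j) {t : Tops P} (hn : NatT j (t : P)) :
    4 * (((Z4 j (cext (j + 1) (topOf : P → Tops P) t)).card : ℤ) -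
      (T4 j (cext (j + 1) (topOf : P → Tops P) t)).card) ≤
        -F2 j t + 2 * F4 j t + 13 * F3 j t := by
  classical
  obtain ⟨e1, e2⟩ := NJ.nat_win h hj hn
  have e3 := NJ.nat_F3 h hj hn
  have hU := NJ.UC_le h hj t
  obtain ⟨s, hs⟩ := NJ.DU_site h hj hn
  have hZ := DU_zero (j := j) (C := cext (j + 1) (topOf : P → Tops P) t)
  set C := cext (j + 1) (topOf : P → Tops P) t with hC
  have h1 := card_le_card (DU_sub j C)
  have h2 := card_le_card (T4_subset j C)
  -- the pairs of lower pendants over the common site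
  have h3 : (DU j C).card * (DU j C).card - (DU j C).card ≤ (D2 j C).card := by
    rw [← offDiag_card]
    refine card_le_card fun q hq => ?_
    obtain ⟨q1, q2, q3⟩ := mem_offDiag.1 hq
    unfold D2
    rw [mem_filter, mem_product]
    exact ⟨⟨DU_sub _ _ q1, DU_sub _ _ q2⟩, q3, not_disjoint_iff.2 ⟨s, hs _ q1, hs _ q2⟩⟩
  have h4 : (DU j C).card ≤ (DU j C).card * (DU j C).card := Nat.le_mul_self _
  have h5 : ((DU j C).card : ℤ) * (DU j C).card - (DU j C).card ≤ (D2 j C).card := by
    have := (Nat.cast_le (α := ℤ)).2 h3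
    rw [Nat.cast_sub h4] at this
    push_cast at this
    exact this
  have h6 : ((DU j C).card : ℤ) ≤ (DC j C).card := by exact_mod_cast h1
  have h7 : ((T4 j C).card : ℤ) ≤ (Z4 j C).card := by exact_mod_cast h2
  have h8 : (0 : ℤ) ≤ (DU j C).card := Nat.cast_nonneg _
  rw [e3]
  rcases Nat.eq_zero_or_pos (UC j C).card with g1 | g1
  · have g2 := hZ (card_eq_zero.1 g1)
    rw [g2, card_empty] at e2 h5
    rw [g1] at e1
    push_cast at e1 e2 h5
    have h9 : (0 : ℤ) ≤ (DC j C).card := Nat.cast_nonneg _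
    linarith
  · have g2 : (UC j C).card = 1 := by omega
    rw [g2] at e1
    push_cast at e1
    generalize ((DU j C).card : ℤ) = d at *
    generalize ((DC j C).card : ℤ) = dc at *
    generalize ((D2 j C).card : ℤ) = d2 at *
    have h9 : 0 ≤ (2 * d - 3) * (d - 1) := by
      rcases le_or_gt d 1 with k | k
      · rcases eq_or_lt_of_le k with k | k
        · rw [k]; norm_num
        · exact mul_nonneg_of_nonpos_of_nonpos (by linarith) (by linarith)
      · exact mul_nonneg (by linarith) (by linarith)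
    nlinarith

/-- THE WINDOW `j` OF A NATURAL PART IS NONNEGATIVE for the weights `-1, 2, 13` -/
theorem NJ.nat_own2 (h : NJ P r j) (hj : 2 ≤ j) {t : Tops P} (hn : NatT j (t : P)) :
    0 ≤ -F2 j t + 2 * F4 j t + 13 * F3 j t := by
  have h1 := NJ.nat_own2s h hj hn
  have h2 := card_le_card (T4_subset j (cext (j + 1) (topOf : P → Tops P) t))
  have h3 : ((T4 j (cext (j + 1) (topOf : P → Tops P) t)).card : ℤ) ≤
      (Z4 j (cext (j + 1) (topOf : P → Tops P) t)).card := by exact_mod_cast h2
  linarith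

end Pool.Agent.GaussPoset.EK
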