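import Pool.Agent.W_448wd_h84.WdA

/-!
MP_448cb3_co, G2, case B, window `j - 1`, small components: consequences of the laws of the words at
a pendant pattern above a row with at most three elements.  helper97.
-/

set_option autoImplicit false

namespace Pool.Agent.GaussPoset.Wd

variable {lo hi : ℕ → ℕ} {j i k : ℕ}

/-- the steps of a word -/
lemma Laws3.st (L : Laws3 lo hi j) (hk : k + 1 ≤ j) : lo k ≤ lo (k + 1) ∧ lo (k + 1) ≤ lo k + 1 ∧
    hi k ≤ hi (k + 1) ∧ hi (k + 1) ≤ hi k + 1 ∧ lo k ≤ hi k ∧ lo (k + 1) ≤ hi (k + 1) := by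
  have h1 := L.lo_step k (by omega)
  have h2 := L.hi_step k (by omega)
  have h3 := L.lo_le k (by omega)
  have h4 := L.lo_le (k + 1) (by omega)
  omega

/-- a pendant pattern below the window gives one above -/
lemma Laws3.pd_pu (L : Laws3 lo hi j) (hk : k + 2 ≤ j) (h : pdL lo hi k ∨ pdR lo hi k) :
    puL lo hi k ∨ puR lo hi k := by
  have h1 := L.two k hk
  unfold npd npu at h1
  by_contra hc
  rw [not_or] at hc
  rw [if_neg hc.1, if_neg hc.2] at h1
  rcases h with h | h
  · rw [if_pos h] at h1
    omega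
  · rw [if_pos h] at h1
    omega

/-- pendant patterns at different ends need two sites -/
lemma Laws3.two_sites (L : Laws3 lo hi j) (h1 : 1 ≤ k) (hk : k + 3 ≤ j)
    (h : (pdL lo hi k ∧ puR lo hi k) ∨ (pdR lo hi k ∧ puL lo hi k)) : hi k = lo k + 1 := by
  have a1 : lo k < hi k := by
    rcases h with ⟨h, -⟩ | ⟨h, -⟩
    · exact h.2.2
    · exact h.2.2
  have a2 : ¬ hi k = lo k + 2 := by
    intro h2
    refine L.be5 k h1 hk ⟨h2, ?_⟩
    rcases h with ⟨h3, h4⟩ | ⟨h3, h4⟩
    · exact Or.inr ⟨h4, h3⟩
    · exact Or.inl ⟨h4, h3⟩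
  have a3 : ¬ lo k + 3 ≤ hi k := by
    intro h2
    obtain ⟨b1, b2⟩ := L.two4 k h1 (by omega) h2
    have b3 := L.two_le k (by omega)
    rcases h with ⟨h3, h4⟩ | ⟨h3, h4⟩
    · have h5 := b2.2 h4
      unfold npd at b3
      rw [if_pos h3, if_pos h5] at b3
      omega
    · have h5 := b1.2 h4
      unfold npd at b3
      rw [if_pos h3, if_pos h5] at b3
      omega
  omega

/-- no alternating pattern: two sites, the steps `O C | C O | O ?` -/
theorem Laws3.zig (L : Laws3 lo hi j) : ∀ k, k + 2 ≤ j → hi (k - 1) = lo (k - 1) + 1 → 1 ≤ k →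
    hi k = lo k + 1 → hi (k + 1) = lo (k + 1) + 1 →
    ((lo k = lo (k - 1) ∧ lo (k + 1) = lo k + 1 ∧ lo (k + 2) = lo (k + 1)) ∨
      (lo k = lo (k - 1) + 1 ∧ lo (k + 1) = lo k ∧ hi (k + 2) = hi (k + 1) + 1)) → False := by
  intro k
  induction k using Nat.strong_induction_on with
  | _ k ih =>
    intro hk h0 h1 h2 h3 hc
    rcases hc with ⟨c1, c2, c3⟩ | ⟨c1, c2, c3⟩
    · -- a left pattern below the window `k`
      have p1 : puL lo hi k ∨ puR lo hi k := L.pd_pu hk (Or.inl ⟨c2, c3, by omega⟩)
      have p2 : puL lo hi k := by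
        rcases p1 with p | p
        · exact p
        · obtain ⟨-, -, p3, -⟩ := p
          omega
      obtain ⟨q1, q2, q3, -⟩ := p2
      have s1 := L.st (k := k - 2) (by omega)
      rw [show k - 2 + 1 = k - 1 by omega] at s1
      have p4 : puL lo hi (k - 1) ∨ puR lo hi (k - 1) := L.pd_pu (k := k - 1) (by omega)
        (Or.inr ⟨by rw [show k - 1 + 1 = k by omega]; omega,
          by rw [show k - 1 + 2 = k + 1 by omega, show k - 1 + 1 = k by omega]; omega, by omega⟩)
      have p5 : puR lo hi (k - 1) := by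
        rcases p4 with p | p
        · obtain ⟨-, -, p3, -⟩ := p
          rw [show k - 1 - 1 = k - 2 by omega] at p3
          omega
        · exact p
      obtain ⟨r1, r2, r3, -⟩ := p5
      rw [show k - 1 - 1 = k - 2 by omega, show k - 1 - 2 = k - 3 by omega] at r2
      rw [show k - 1 - 1 = k - 2 by omega] at r3
      refine ih (k - 1) (by omega) (by omega) ?_ (by omega) (by omega) ?_ (Or.inr ⟨?_, ?_, ?_⟩)
      · rw [show k - 1 - 1 = k - 2 by omega]
        omega
      · rw [show k - 1 + 1 = k by omega]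
        omega
      · rw [show k - 1 - 1 = k - 2 by omega]
        omega
      · rw [show k - 1 + 1 = k by omega]
        omega
      · rw [show k - 1 + 1 = k by omega, show k - 1 + 2 = k + 1 by omega]
        omega
    · have p1 : puL lo hi k ∨ puR lo hi k := L.pd_pu hk (Or.inr ⟨by omega, c3, by omega⟩)
      have p2 : puR lo hi k := by
        rcases p1 with p | p
        · obtain ⟨-, -, p3, -⟩ := p
          omega
        · exact p
      obtain ⟨q1, q2, q3, -⟩ := p2
      have s1 := L.st (k := k - 2) (by omega)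
      rw [show k - 2 + 1 = k - 1 by omega] at s1
      have p4 : puL lo hi (k - 1) ∨ puR lo hi (k - 1) := L.pd_pu (k := k - 1) (by omega)
        (Or.inl ⟨by rw [show k - 1 + 1 = k by omega]; omega,
          by rw [show k - 1 + 2 = k + 1 by omega, show k - 1 + 1 = k by omega]; omega, by omega⟩)
      have p5 : puL lo hi (k - 1) := by
        rcases p4 with p | p
        · exact p
        · obtain ⟨-, -, p3, -⟩ := p
          rw [show k - 1 - 1 = k - 2 by omega] at p3
          omega
      obtain ⟨r1, r2, r3, -⟩ := p5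
      rw [show k - 1 - 1 = k - 2 by omega, show k - 1 - 2 = k - 3 by omega] at r2
      rw [show k - 1 - 1 = k - 2 by omega] at r3
      refine ih (k - 1) (by omega) (by omega) ?_ (by omega) (by omega) ?_ (Or.inl ⟨?_, ?_, ?_⟩)
      · rw [show k - 1 - 1 = k - 2 by omega]
        omega
      · rw [show k - 1 + 1 = k by omega]
        omega
      · rw [show k - 1 - 1 = k - 2 by omega]
        omega
      · rw [show k - 1 + 1 = k by omega]
        omega
      · rw [show k - 1 + 1 = k by omega, show k - 1 + 2 = k + 1 by omega]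
        omega

lemma flw_posL (h : lo (k + 3) = lo (k + 2)) (p : pdL lo hi k) : 1 ≤ flw lo hi k := by
  unfold flw
  rw [if_pos (show lo (k + 3) = lo (k + 2) ∧ (pdL lo hi k ∨
    (pdR lo hi k ∧ lo (k + 2) = hi (k + 2))) from ⟨h, Or.inl p⟩)]
  omega

lemma flw_posR (h : hi (k + 3) = hi (k + 2) + 1) (p : pdR lo hi k) : 1 ≤ flw lo hi k := by
  unfold flw
  rw [if_pos (show hi (k + 3) = hi (k + 2) + 1 ∧ (pdR lo hi k ∨
    (pdL lo hi k ∧ lo (k + 2) = hi (k + 2))) from ⟨h, Or.inl p⟩)]
  omega

lemma fuw_pos (h : 1 ≤ fuw lo hi k) : (3 ≤ k ∧ lo (k - 2) = lo (k - 3) + 1 ∧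
      (puL lo hi k ∨ (puR lo hi k ∧ lo (k - 2) = hi (k - 2)))) ∨
    (3 ≤ k ∧ hi (k - 2) = hi (k - 3) ∧
      (puR lo hi k ∨ (puL lo hi k ∧ lo (k - 2) = hi (k - 2)))) := by
  unfold fuw at h
  by_contra hc
  rw [not_or] at hc
  rw [if_neg hc.1, if_neg hc.2] at h
  omega

lemma fuw_two (h : 2 ≤ fuw lo hi k) : (3 ≤ k ∧ lo (k - 2) = lo (k - 3) + 1 ∧
      (puL lo hi k ∨ (puR lo hi k ∧ lo (k - 2) = hi (k - 2)))) ∧
    (3 ≤ k ∧ hi (k - 2) = hi (k - 3) ∧
      (puR lo hi k ∨ (puL lo hi k ∧ lo (k - 2) = hi (k - 2)))) := by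
  unfold fuw at h
  refine ⟨?_, ?_⟩
  · by_contra hc
    rw [if_neg hc] at h
    split_ifs at h <;> omega
  · by_contra hc
    rw [if_neg hc] at h
    split_ifs at h <;> omega

lemma fuw_le : fuw lo hi k ≤ 2 := by
  unfold fuw
  split_ifs <;> omega

/-- no chain: two sites, a left end with the letters `C C O O` while the right end has the letters
`O O` (and the mirror image) -/
theorem Laws3.chain (L : Laws3 lo hi j) : ∀ k, k + 3 ≤ j → 1 ≤ k → hi k = lo k + 1 →
    ((lo k = lo (k - 1) + 1 ∧ lo (k + 1) = lo k + 1 ∧ hi (k + 1) = hi k + 1 ∧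
        lo (k + 2) = lo (k + 1) ∧ lo (k + 3) = lo (k + 2)) ∨
      (hi k = hi (k - 1) ∧ lo (k + 1) = lo k ∧ hi (k + 1) = hi k ∧
        hi (k + 2) = hi (k + 1) + 1 ∧ hi (k + 3) = hi (k + 2) + 1)) → False := by
  intro k
  induction k using Nat.strong_induction_on with
  | _ k ih =>
    intro hk h1 h2 hc
    have s0 := L.st (k := k - 1) (by omega)
    rw [show k - 1 + 1 = k by omega] at s0
    rcases hc with ⟨c1, c2, c3, c4, c5⟩ | ⟨c1, c2, c3, c4, c5⟩
    · have p0 : pdL lo hi k := ⟨c2, c4, by omega⟩
      have p2 : puR lo hi k := by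
        rcases L.pd_pu (by omega) (Or.inl p0) with p | p
        · obtain ⟨-, -, p3, -⟩ := p
          omega
        · exact p
      obtain ⟨q1, q2, q3, -⟩ := p2
      -- the chain goes on above
      have t1 := L.thr k h1 hk (by omega)
      have t3 := flw_posL c5 p0
      have t2 : 3 ≤ k ∧ hi (k - 2) = hi (k - 3) := by
        rcases fuw_pos (lo := lo) (hi := hi) (k := k) (by omega) with
          ⟨g1, g2, g3 | ⟨g3, g4⟩⟩ | ⟨g1, g2, -⟩
        · obtain ⟨-, -, g5, -⟩ := g3
          omega
        · have s1 := L.st (k := k - 2) (by omega)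
          rw [show k - 2 + 1 = k - 1 by omega] at s1
          omega
        · exact ⟨g1, g2⟩
      have s1 := L.st (k := k - 2) (by omega)
      rw [show k - 2 + 1 = k - 1 by omega] at s1
      have p3 : pdR lo hi (k - 2) := ⟨by rw [show k - 2 + 1 = k - 1 by omega]; omega,
        by rw [show k - 2 + 2 = k by omega, show k - 2 + 1 = k - 1 by omega]; omega, by omega⟩
      have p4 : puL lo hi (k - 2) := by
        rcases L.pd_pu (by omega) (Or.inr p3) with p | p
        · exact p
        · obtain ⟨-, -, p5, -⟩ := p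
          rw [show k - 2 - 1 = k - 3 by omega] at p5
          omega
      have p5 := L.two_sites (k := k - 2) (by obtain ⟨g, -⟩ := p4; omega) (by omega)
        (Or.inr ⟨p3, p4⟩)
      obtain ⟨r1, r2, r3, -⟩ := p4
      rw [show k - 2 - 1 = k - 3 by omega] at r3
      refine ih (k - 2) (by omega) (by omega) (by omega) p5 (Or.inr ⟨?_, ?_, ?_, ?_, ?_⟩)
      · rw [show k - 2 - 1 = k - 3 by omega]
        omega
      · rw [show k - 2 + 1 = k - 1 by omega]
        omega
      · rw [show k - 2 + 1 = k - 1 by omega]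
        omega
      · rw [show k - 2 + 2 = k by omega, show k - 2 + 1 = k - 1 by omega]
        omega
      · rw [show k - 2 + 3 = k + 1 by omega, show k - 2 + 2 = k by omega]
        omega
    · have p0 : pdR lo hi k := ⟨c3, c4, by omega⟩
      have p2 : puL lo hi k := by
        rcases L.pd_pu (by omega) (Or.inr p0) with p | p
        · exact p
        · obtain ⟨-, -, p3, -⟩ := p
          omega
      obtain ⟨q1, q2, q3, -⟩ := p2
      have t1 := L.thr k h1 hk (by omega)
      have t3 := flw_posR c5 p0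
      have t2 : 3 ≤ k ∧ lo (k - 2) = lo (k - 3) + 1 := by
        rcases fuw_pos (lo := lo) (hi := hi) (k := k) (by omega) with
          ⟨g1, g2, -⟩ | ⟨g1, g2, g3 | ⟨g3, g4⟩⟩
        · exact ⟨g1, g2⟩
        · obtain ⟨-, -, g5, -⟩ := g3
          omega
        · have s1 := L.st (k := k - 2) (by omega)
          rw [show k - 2 + 1 = k - 1 by omega] at s1
          omega
      have s1 := L.st (k := k - 2) (by omega)
      rw [show k - 2 + 1 = k - 1 by omega] at s1
      have p3 : pdL lo hi (k - 2) := ⟨by rw [show k - 2 + 1 = k - 1 by omega]; omega,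
        by rw [show k - 2 + 2 = k by omega, show k - 2 + 1 = k - 1 by omega]; omega, by omega⟩
      have p4 : puR lo hi (k - 2) := by
        rcases L.pd_pu (by omega) (Or.inl p3) with p | p
        · obtain ⟨-, -, p5, -⟩ := p
          rw [show k - 2 - 1 = k - 3 by omega] at p5
          omega
        · exact p
      have p5 := L.two_sites (k := k - 2) (by obtain ⟨g, -⟩ := p4; omega) (by omega)
        (Or.inl ⟨p3, p4⟩)
      obtain ⟨r1, r2, r3, -⟩ := p4
      rw [show k - 2 - 1 = k - 3 by omega] at r3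
      refine ih (k - 2) (by omega) (by omega) (by omega) p5 (Or.inl ⟨?_, ?_, ?_, ?_, ?_⟩)
      · rw [show k - 2 - 1 = k - 3 by omega]
        omega
      · rw [show k - 2 + 1 = k - 1 by omega]
        omega
      · rw [show k - 2 + 1 = k - 1 by omega]
        omega
      · rw [show k - 2 + 2 = k by omega, show k - 2 + 1 = k - 1 by omega]
        omega
      · rw [show k - 2 + 3 = k + 1 by omega, show k - 2 + 2 = k by omega]
        omega

/-- at most one pendant pattern above an inner window -/
lemma Laws3.pu_one (L : Laws3 lo hi j) (hk : k + 2 ≤ j) : ¬ (puL lo hi k ∧ puR lo hi k) := by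
  rintro ⟨h1, h2⟩
  have h3 := L.two k hk
  have h4 := L.two_le k hk
  unfold npu at h3
  rw [if_pos h1, if_pos h2] at h3
  omega

/-- at most one element hangs above the upper pendant -/
theorem Laws3.fuw_one (L : Laws3 lo hi j) : ∀ k, k ≤ j → ¬ (puL lo hi k ∧ puR lo hi k) →
    fuw lo hi k ≤ 1 := by
  intro k
  induction k using Nat.strong_induction_on with
  | _ k ih =>
    intro hk hn
    by_contra hc
    obtain ⟨⟨a1, a2, a3⟩, ⟨-, b2, b3⟩⟩ := fuw_two (lo := lo) (hi := hi) (k := k) (by omega)
    have s0 := L.st (k := k - 3) (by omega)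
    have s1 := L.st (k := k - 2) (by omega)
    have s2 := L.st (k := k - 1) (by omega)
    rw [show k - 3 + 1 = k - 2 by omega] at s0
    rw [show k - 2 + 1 = k - 1 by omega] at s1
    rw [show k - 1 + 1 = k by omega] at s2
    have e1 : lo (k - 2) = hi (k - 2) := by
      rcases a3 with h1 | ⟨h1, h2⟩
      · rcases b3 with h3 | ⟨h3, h4⟩
        · exact absurd ⟨h1, h3⟩ hn
        · exact h4
      · exact h2
    rcases Nat.lt_or_ge 3 k with h4 | h4
    · have i3 : fuw lo hi (k - 3) ≤ 1 := ih (k - 3) (by omega) (by omega) (L.pu_one (by omega))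
      have t1 := L.thr (k - 3) (by omega) (by omega) (by omega)
      have t2 : flw lo hi (k - 3) = 2 := by
        unfold flw
        rw [show k - 3 + 3 = k by omega, show k - 3 + 2 = k - 1 by omega]
        have e2 : puL lo hi k ∨ puR lo hi k := by
          rcases a3 with h1 | ⟨h1, h2⟩
          · exact Or.inl h1
          · exact Or.inr h1
        rcases e2 with ⟨-, c1, c2, c3⟩ | ⟨-, c1, c2, c3⟩
        · have p1 : pdR lo hi (k - 3) := ⟨by rw [show k - 3 + 1 = k - 2 by omega]; omega,
            by rw [show k - 3 + 2 = k - 1 by omega, show k - 3 + 1 = k - 2 by omega]; omega,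
            by omega⟩
          rw [if_pos ⟨c2, Or.inr ⟨p1, by omega⟩⟩, if_pos ⟨by omega, Or.inl p1⟩]
        · have p1 : pdL lo hi (k - 3) := ⟨by rw [show k - 3 + 1 = k - 2 by omega]; omega,
            by rw [show k - 3 + 2 = k - 1 by omega, show k - 3 + 1 = k - 2 by omega]; omega,
            by omega⟩
          rw [if_pos ⟨by omega, Or.inl p1⟩, if_pos ⟨by omega, Or.inr ⟨p1, by omega⟩⟩]
      omega
    · have h0 := L.lo_zero
      have h0' := L.hi_zero
      have e3 : k - 3 = 0 := by omega
      rw [e3] at a2 b2 s0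
      omega

/-- THE WORD FACTS at the last window but one, at most three sites -/
theorem Laws3.small (L : Laws3 lo hi j) (hij : i + 1 = j) (hp : puL lo hi i ∨ puR lo hi i)
    (hu : ¬ (puL lo hi i ∧ puR lo hi i)) : fuw lo hi i ≤ 1 ∧
    (hi i = lo i + 1 → (hi j - lo j) + (hi (i - 1) - lo (i - 1)) ≤ 2) ∧
    (hi i = lo i + 2 → 1 ≤ fuw lo hi i →
      (puL lo hi i → lo j = lo i + 1) ∧ (puR lo hi i → hi j = hi i)) := by
  subst hij
  have h2 : 2 ≤ i := by
    rcases hp with h | h
    · exact h.1
    · exact h.1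
  have s0 := L.st (k := i) le_rfl
  have s1 := L.st (k := i - 1) (by omega)
  have s2 := L.st (k := i - 2) (by omega)
  rw [show i - 1 + 1 = i by omega] at s1
  rw [show i - 2 + 1 = i - 1 by omega] at s2
  refine ⟨L.fuw_one i (by omega) hu, ?_, ?_⟩
  · intro hV
    by_contra hc
    rcases hp with ⟨-, c1, c2, c3⟩ | ⟨-, c1, c2, c3⟩
    · have p1 : pdR lo hi (i - 1) := ⟨by rw [show i - 1 + 1 = i by omega]; omega,
        by rw [show i - 1 + 2 = i + 1 by omega, show i - 1 + 1 = i by omega]; omega, by omega⟩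
      have p2 : puR lo hi (i - 1) := by
        rcases L.pd_pu (k := i - 1) (by omega) (Or.inr p1) with p | p
        · obtain ⟨-, -, p5, -⟩ := p
          rw [show i - 1 - 1 = i - 2 by omega] at p5
          omega
        · exact p
      obtain ⟨r1, r2, r3, -⟩ := p2
      rw [show i - 1 - 1 = i - 2 by omega] at r3
      refine L.zig (i - 1) (by omega) ?_ (by omega) (by omega) ?_ (Or.inr ⟨?_, ?_, ?_⟩)
      · rw [show i - 1 - 1 = i - 2 by omega]
        omega
      · rw [show i - 1 + 1 = i by omega]
        omega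
      · rw [show i - 1 - 1 = i - 2 by omega]
        omega
      · rw [show i - 1 + 1 = i by omega]
        omega
      · rw [show i - 1 + 2 = i + 1 by omega, show i - 1 + 1 = i by omega]
        omega
    · have p1 : pdL lo hi (i - 1) := ⟨by rw [show i - 1 + 1 = i by omega]; omega,
        by rw [show i - 1 + 2 = i + 1 by omega, show i - 1 + 1 = i by omega]; omega, by omega⟩
      have p2 : puL lo hi (i - 1) := by
        rcases L.pd_pu (k := i - 1) (by omega) (Or.inl p1) with p | p
        · exact p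
        · obtain ⟨-, -, p5, -⟩ := p
          rw [show i - 1 - 1 = i - 2 by omega] at p5
          omega
      obtain ⟨r1, r2, r3, -⟩ := p2
      rw [show i - 1 - 1 = i - 2 by omega] at r3
      refine L.zig (i - 1) (by omega) ?_ (by omega) (by omega) ?_ (Or.inl ⟨?_, ?_, ?_⟩)
      · rw [show i - 1 - 1 = i - 2 by omega]
        omega
      · rw [show i - 1 + 1 = i by omega]
        omega
      · rw [show i - 1 - 1 = i - 2 by omega]
        omega
      · rw [show i - 1 + 1 = i by omega]
        omega
      · rw [show i - 1 + 2 = i + 1 by omega, show i - 1 + 1 = i by omega]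
        omega
  · intro hV hf
    refine ⟨fun hL => ?_, fun hR => ?_⟩
    · by_contra hc
      obtain ⟨-, c1, c2, c3⟩ := hL
      have f1 : 3 ≤ i ∧ lo (i - 2) = lo (i - 3) + 1 := by
        rcases fuw_pos hf with ⟨g1, g2, -⟩ | ⟨g1, g2, g3 | ⟨g3, g4⟩⟩
        · exact ⟨g1, g2⟩
        · exact absurd ⟨⟨h2, c1, c2, c3⟩, g3⟩ hu
        · exfalso
          omega
      have p1 : pdL lo hi (i - 2) := ⟨by rw [show i - 2 + 1 = i - 1 by omega]; omega,
        by rw [show i - 2 + 2 = i by omega, show i - 2 + 1 = i - 1 by omega]; omega, by omega⟩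
      have p2 : puR lo hi (i - 2) := by
        rcases L.pd_pu (k := i - 2) (by omega) (Or.inl p1) with p | p
        · obtain ⟨-, -, p5, -⟩ := p
          rw [show i - 2 - 1 = i - 3 by omega] at p5
          omega
        · exact p
      have p3 := L.two_sites (k := i - 2) (by omega) (by omega) (Or.inl ⟨p1, p2⟩)
      refine L.chain (i - 2) (by omega) (by omega) p3 (Or.inl ⟨?_, ?_, ?_, ?_, ?_⟩)
      · rw [show i - 2 - 1 = i - 3 by omega]
        omega
      · rw [show i - 2 + 1 = i - 1 by omega]
        omega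
      · rw [show i - 2 + 1 = i - 1 by omega]
        omega
      · rw [show i - 2 + 2 = i by omega, show i - 2 + 1 = i - 1 by omega]
        omega
      · rw [show i - 2 + 3 = i + 1 by omega, show i - 2 + 2 = i by omega]
        omega
    · by_contra hc
      obtain ⟨-, c1, c2, c3⟩ := hR
      have f1 : 3 ≤ i ∧ hi (i - 2) = hi (i - 3) := by
        rcases fuw_pos hf with ⟨g1, g2, g3 | ⟨g3, g4⟩⟩ | ⟨g1, g2, -⟩
        · exact absurd ⟨g3, ⟨h2, c1, c2, c3⟩⟩ hu
        · exfalso
          omega
        · exact ⟨g1, g2⟩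
      have p1 : pdR lo hi (i - 2) := ⟨by rw [show i - 2 + 1 = i - 1 by omega]; omega,
        by rw [show i - 2 + 2 = i by omega, show i - 2 + 1 = i - 1 by omega]; omega, by omega⟩
      have p2 : puL lo hi (i - 2) := by
        rcases L.pd_pu (k := i - 2) (by omega) (Or.inr p1) with p | p
        · exact p
        · obtain ⟨-, -, p5, -⟩ := p
          rw [show i - 2 - 1 = i - 3 by omega] at p5
          omega
      have p3 := L.two_sites (k := i - 2) (by omega) (by omega) (Or.inr ⟨p1, p2⟩)
      refine L.chain (i - 2) (by omega) (by omega) p3 (Or.inr ⟨?_, ?_, ?_, ?_, ?_⟩)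
      · rw [show i - 2 - 1 = i - 3 by omega]
        omega
      · rw [show i - 2 + 1 = i - 1 by omega]
        omega
      · rw [show i - 2 + 1 = i - 1 by omega]
        omega
      · rw [show i - 2 + 2 = i by omega, show i - 2 + 1 = i - 1 by omega]
        omega
      · rw [show i - 2 + 3 = i + 1 by omega, show i - 2 + 2 = i by omega]
        omega

end Pool.Agent.GaussPoset.Wd
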