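import Pool.Agent.W_448nv_h97.NvA
import Pool.Agent.W_448v3_h53.V3A
import Pool.Agent.W_448win_h80.W1
import Pool.Agent.W_448pn_h63.QbC

/-!
MP_448cb3_co, G2, case B, window `j - 1`: natural parts with at most three sites, no flip: twins, three
site elements, the near elements of the pendant.  helper97.
-/

set_option autoImplicit false

namespace Pool.Agent.GaussPoset.Win.Pn

set_option linter.unusedSectionVars false

open Finset W4 Wd
open Pool.Agent.GaussPoset.Win.SO (con PN on mem_PN vp F5 mem_F5 N1f N5f)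

universe u

variable {P : Type u} [Fintype P] [PartialOrder P] [DecidableEq P] {r j i : ℕ}
  {psi : P → P} {C : Finset P} {p w z : P} {lo hi : ℕ → ℕ} {e : ℕ → ℕ → P}

section nj

variable (h : NJ P r j) (hij : i + 1 = j) (hi1 : 1 ≤ i)
include h hij hi1

/-- a natural part has no two elements of level `j + 1` with the same two covers -/
theorem nat_twin {t : Tops P} (hn : NatT j (t : P)) {z z' x x' : P} (hz : z ∈ SS i t)
    (hne : x ≠ x') (hl : lev x = j) (hl' : lev x' = j) (h1 : z ⋖ x) (h2 : z ⋖ x') (h3 : z' ⋖ x)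
    (h4 : z' ⋖ x') : z = z' := by
  classical
  have H := h.g.H
  have hC : Part (i + 1) (SS i t) := h.part (by omega) (by omega) t
  have lz := lev_cov H h1
  have hx : x ∈ SS i t := hC.up hz h1
  have hx' : x' ∈ SS i t := hC.up hz h2
  have tx := (h.mem (i := i) (by omega) t (y := x) (by omega)).1 hx
  have tx' := (h.mem (i := i) (by omega) t (y := x') (by omega)).1 hx'
  have e1 := hn x x' hl hl' tx tx' hne
  have g : GoodTo P r (i + 1) := by rw [hij]; exact h.g
  have e2 : ucv x x' ≤ 1 := ucv_le_one g (by omega) hne (by omega)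
  by_contra hzz
  have e3 : 2 ≤ dcv x x' := by
    unfold dcv
    rw [← card_pair hzz]
    refine card_le_card fun y hy => ?_
    rw [mem_insert, mem_singleton] at hy
    rw [mem_filter]
    rcases hy with rfl | rfl
    · exact ⟨mem_univ _, h1, h2⟩
    · exact ⟨mem_univ _, h3, h4⟩
  omega

/-- a natural part has no twins -/
theorem nat_Tws {t : Tops P} (hn : NatT j (t : P)) : Tws i (SS i t) = ∅ := by
  classical
  have H := h.g.H
  rw [eq_empty_iff_forall_notMem]
  rintro ⟨w, w'⟩ hq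
  have T := mem_Tws.1 hq
  obtain ⟨m1, m2, m3⟩ : w ∈ SS i t ∧ lev w = i + 2 ∧ up i w = 3 := mem_ZL.1 T.zl
  have hc := card_uc_of_up H m2 m3
  obtain ⟨x, x', hne, hu⟩ := card_eq_two.1 hc
  have hx : w ⋖ x := mem_uc.1 (by rw [hu]; simp)
  have hx' : w ⋖ x' := mem_uc.1 (by rw [hu]; simp)
  have lx := lev_cov H hx
  have lx' := lev_cov H hx'
  have hu' : uc w' = {x, x'} := by
    have h1 : uc w = uc w' := T.uc
    rw [← h1]
    exact hu
  have k1 : w' ⋖ x := mem_uc.1 (by rw [hu']; simp)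
  have k2 : w' ⋖ x' := mem_uc.1 (by rw [hu']; simp)
  exact T.ne (nat_twin h hij hi1 hn m1 hne (by omega) (by omega) hx hx' k1 k2)

/-- the upper pendant of a part without flip in coordinates -/
theorem pu_row {t : Tops P} (Cm : Cp.Comp (i + 1) (t : P) lo hi e) (hF : F5 i (SS i t) = ∅)
    (hp : p ∈ PD P i) (ht : (topOf p : Tops P) = t) : 2 ≤ i ∧ lo i < hi i ∧
    ¬ (puL lo hi i ∧ puR lo hi i) ∧
    ((puL lo hi i ∧ sit i p = {e i (lo i), e i (lo i + 1)}) ∨
      (puR lo hi i ∧ sit i p = {e i (hi i - 1), e i (hi i)})) := by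
  classical
  have H := h.g.H
  have g : GoodTo P r (i + 1) := by rw [hij]; exact h.g
  have W := Cm.toWin
  have lp := (mem_PD.1 hp).1
  have hpS : p ∈ SS i t := by rw [← ht]; exact nj_mem h hij hi1 lp
  obtain ⟨psi, hM⟩ := good_mat h.g.H (h.g.good i (by omega))
  rcases (nj_mtc h hij hi1 hM t hF).out with hN | ⟨z, q, y, u, hz, hq, hzD, hqU, huz, hdq, hdu,
      hc, uz, uq, -⟩
  · exact absurd hp (hN p hpS).1
  have hpz : p = z := uz p hpS hp
  subst hpz
  have lq := (mem_PU.1 hqU).1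
  obtain ⟨m, rfl⟩ : ∃ m, i = m + 2 := ⟨i - 2, by omega⟩
  have hqt : q ≤ (t : P) := (h.mem (i := m + 2) (by omega) t (y := q) (by omega)).1 hq
  obtain ⟨hV, hcase⟩ := W.PU_cases g t.2 (m := m) (by omega) hqU hqt
  have hsp : sit (m + 2) p = stD (m + 2) q := by
    rw [sit_PDs H hp huz, ← hdu]
    exact (ClE_stD H lq hdq).symm
  have hno : ¬ (puL lo hi (m + 2) ∧ puR lo hi (m + 2)) := by
    rintro ⟨hL, hR⟩
    have e0 := W.lohi m (by omega)
    have e1 := W.lohi (m + 1) (by omega)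
    have k1 : e m (lo m) ∈ PU P (m + 2) :=
      (W.mem_PU_iff g t.2 (k := m) (by omega) le_rfl e0).2 (Or.inl ⟨rfl, hL⟩)
    have k2 : e m (hi m) ∈ PU P (m + 2) :=
      (W.mem_PU_iff g t.2 (k := m) (by omega) e0 le_rfl).2 (Or.inr ⟨rfl, hR⟩)
    have l1 := W.lev_x m (by omega) (lo m) le_rfl e0
    have l2 := W.lev_x m (by omega) (hi m) e0 le_rfl
    have m1 : e m (lo m) ∈ SS (m + 2) t :=
      (h.mem (i := m + 2) (by omega) t (y := e m (lo m)) (by omega)).2
        (W.le_t m (by omega) _ le_rfl e0)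
    have m2 : e m (hi m) ∈ SS (m + 2) t :=
      (h.mem (i := m + 2) (by omega) t (y := e m (hi m)) (by omega)).2
        (W.le_t m (by omega) _ e0 le_rfl)
    have q1 := uq _ m1 k1
    have q2 := uq _ m2 k2
    have q3 := W.inj' (k := m) (by omega) le_rfl e0 e0 le_rfl (q1.trans q2.symm)
    obtain ⟨-, c1, -, -⟩ := hL
    obtain ⟨-, c2, -, -⟩ := hR
    rw [show m + 2 - 1 = m + 1 by omega, show m + 2 - 2 = m by omega] at c1 c2
    omega
  refine ⟨by omega, by omega, hno, ?_⟩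
  rcases hcase with ⟨c1, c2, -, c4⟩ | ⟨c1, c2, -, c4⟩
  · left
    refine ⟨⟨by omega, ?_, ?_, by omega⟩, by rw [hsp]; exact c4⟩
    · rw [show m + 2 - 1 = m + 1 by omega, show m + 2 - 2 = m by omega]
      exact c1
    · rw [show m + 2 - 1 = m + 1 by omega]
      exact c2
  · right
    refine ⟨⟨by omega, ?_, ?_, by omega⟩, by rw [hsp]; exact c4⟩
    · rw [show m + 2 - 1 = m + 1 by omega, show m + 2 - 2 = m by omega]
      exact c1
    · rw [show m + 2 - 1 = m + 1 by omega]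
      exact c2

/-- the near elements which meet two neighbouring sites in coordinates -/
theorem nn_le {t : Tops P} (Cm : Cp.Comp (i + 1) (t : P) lo hi e) {a : ℕ} (ha : lo i ≤ a)
    (ha' : a + 1 ≤ hi i) (hs : sit i p = {e i a, e i (a + 1)}) (hi2 : 1 ≤ i) :
    nn i p ≤ ((min (hi (i + 1)) (a + 2) + 1 - max (lo (i + 1)) a : ℕ) : ℤ) +
      ((min (hi (i - 1)) (a + 1) + 1 - max (lo (i - 1)) (a - 1) : ℕ) : ℤ) := by
  classical
  have g : GoodTo P r (i + 1) := by rw [hij]; exact h.g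
  have W := Cm.toWin
  have key : ∀ T : Finset P, ¬ Disjoint T (sit i p) ↔ e i a ∈ T ∨ e i (a + 1) ∈ T := by
    intro T
    rw [hs, not_disjoint_iff]
    constructor
    · rintro ⟨v, h1, h2⟩
      rw [mem_insert, mem_singleton] at h2
      rcases h2 with h2 | h2
      · rw [h2] at h1; exact Or.inl h1
      · rw [h2] at h1; exact Or.inr h1
    · rintro (h1 | h1)
      · exact ⟨_, h1, mem_insert_self _ _⟩
      · exact ⟨_, h1, mem_insert_of_mem (mem_singleton_self _)⟩
  have c1 : (nLp i p).card ≤ min (hi (i + 1)) (a + 2) + 1 - max (lo (i + 1)) a := by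
    rw [← Nat.card_Icc]
    refine (card_le_card (t := (Finset.Icc (max (lo (i + 1)) a)
      (min (hi (i + 1)) (a + 2))).image (e (i + 1))) fun w hw => ?_).trans card_image_le
    obtain ⟨lw, hd⟩ := mem_nLp.1 hw
    rw [key] at hd
    rw [mem_image]
    rcases hd with hd | hd
    · obtain ⟨s, s1, s2, s3, s4⟩ := (W.dc_iff g t.2 (k := i) (b := a) (by omega) ha (by omega)).1
        (mem_uc.1 hd)
      exact ⟨s, Finset.mem_Icc.2 (by omega), s4⟩
    · obtain ⟨s, s1, s2, s3, s4⟩ := (W.dc_iff g t.2 (k := i) (b := a + 1) (by omega) (by omega)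
        (by omega)).1 (mem_uc.1 hd)
      exact ⟨s, Finset.mem_Icc.2 (by omega), s4⟩
  have c2 : (nUp i p).card ≤ min (hi (i - 1)) (a + 1) + 1 - max (lo (i - 1)) (a - 1) := by
    obtain ⟨m, rfl⟩ : ∃ m, i = m + 1 := ⟨i - 1, by omega⟩
    rw [show m + 1 - 1 = m by omega]
    rw [← Nat.card_Icc]
    refine (card_le_card (t := (Finset.Icc (max (lo m) (a - 1))
      (min (hi m) (a + 1))).image (e m)) fun w hw => ?_).trans card_image_le
    obtain ⟨lw, hd⟩ := mem_nUp.1 hw
    rw [key] at hd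
    rw [mem_image]
    rcases hd with hd | hd
    · obtain ⟨s, s1, s2, s3, s4⟩ := (W.uc_iff g t.2 (k := m) (a := a) (by omega) ha
        (by omega)).1 (mem_dc.1 hd)
      exact ⟨s, Finset.mem_Icc.2 (by omega), s4⟩
    · obtain ⟨s, s1, s2, s3, s4⟩ := (W.uc_iff g t.2 (k := m) (a := a + 1) (by omega)
        (by omega) (by omega)).1 (mem_dc.1 hd)
      exact ⟨s, Finset.mem_Icc.2 (by omega), s4⟩
  unfold nn
  have d1 : ((nLp i p).card : ℤ) ≤ ((min (hi (i + 1)) (a + 2) + 1 - max (lo (i + 1)) a : ℕ) : ℤ) :=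
    by exact_mod_cast c1
  have d2 : ((nUp i p).card : ℤ) ≤
      ((min (hi (i - 1)) (a + 1) + 1 - max (lo (i - 1)) (a - 1) : ℕ) : ℤ) := by exact_mod_cast c2
  linarith

/-- THE NEAR ELEMENTS of the pendant of a part with at most three sites -/
theorem small_nn {t : Tops P} (Cm : Cp.Comp (i + 1) (t : P) lo hi e) (L : Laws3 lo hi (i + 1))
    (hF : F5 i (SS i t) = ∅) (h3 : hi i ≤ lo i + 2) (hp : p ∈ PD P i)
    (ht : (topOf p : Tops P) = t) : Wd.fuw lo hi i ≤ 1 ∧ nn i p ≤ 5 - (Wd.fuw lo hi i : ℤ) := by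
  obtain ⟨a0, a1, a2, a3⟩ := pu_row h hij hi1 Cm hF hp ht
  obtain ⟨b1, b2, b3⟩ := L.small rfl (by tauto) a2
  have s0 := L.st (k := i) le_rfl
  have s1 := L.st (k := i - 1) (by omega)
  rw [show i - 1 + 1 = i by omega] at s1
  refine ⟨b1, ?_⟩
  rcases a3 with ⟨c1, c2⟩ | ⟨c1, c2⟩
  · have k1 := nn_le h hij hi1 Cm (a := lo i) le_rfl (by omega) c2 hi1
    obtain ⟨-, d1, d2, d3⟩ := c1
    have b4 : hi i = lo i + 2 → 1 ≤ Wd.fuw lo hi i → lo (i + 1) = lo i + 1 := fun q1 q2 =>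
      (b3 q1 q2).1 ⟨a0, d1, d2, d3⟩
    omega
  · have k1 := nn_le h hij hi1 Cm (a := hi i - 1) (by omega) (by omega)
      (by rw [show hi i - 1 + 1 = hi i by omega]; exact c2) hi1
    obtain ⟨-, d1, d2, d3⟩ := c1
    have b4 : hi i = lo i + 2 → 1 ≤ Wd.fuw lo hi i → hi (i + 1) = hi i := fun q1 q2 =>
      (b3 q1 q2).2 ⟨a0, d1, d2, d3⟩
    omega

end nj

end Pool.Agent.GaussPoset.Win.Pn
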