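import Pool.Agent.W_448nv_h97.NvB
import Pool.Agent.W_448nv_h97.NvC
import Pool.Agent.W_448so_h63.EB

/-!
MP_448cb3_co, G2, case B: THE VALUE OF THE NATURAL PARTS WITH AT MOST THREE SITES, no flip, for the
weights `Wsh = (-1, 9, 1, 4, 3, -1, 2, 13, 0)`.  helper97.
-/

set_option autoImplicit false

namespace Pool.Agent.GaussPoset.Win.Pn

set_option linter.unusedSectionVars false

open Finset W4 Wd
open Pool.Agent.GaussPoset.Win.SO (con PN on mem_PN vp F5 mem_F5 N1f N5f)

universe u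

variable {P : Type u} [Fintype P] [PartialOrder P] [DecidableEq P] {r j i : ℕ}
  {psi : P → P} {C : Finset P} {p w z : P} {lo hi : ℕ → ℕ} {e : ℕ → ℕ → P}

/-- the arithmetic of the value -/
lemma small_arith {D k f n z sk N w tw : ℤ} (hD : 0 ≤ D) (hk : 0 ≤ k) (hf : 0 ≤ f) (hf1 : f ≤ 1)
    (hn : n ≤ 5 - f) (hz : 0 ≤ z) (hzk : z + k ≤ 2) (hs : sk ≤ 2 * z) (hN : 0 ≤ N) (hw : 0 ≤ w)
    (ht : tw = 0) :
    0 ≤ 2 * (-(D + k - f) + ((D + k - f) ^ 2 + 2 * N) + w) + (z * (9 + 3) -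
      4 * 1 * z * (k + n - 3) - 2 * 1 * sk - 2 * 4 * z * (-(D + k - f)) - 4 * 3 * z * 0 +
        (2 * 3 - 4) * (z * (z - 1)) - tw) := by
  have h0 : 0 ≤ D * D := mul_nonneg hD hD
  have q1 : z = 0 ∨ z = 1 ∨ z = 2 := by omega
  have q2 : f = 0 ∨ f = 1 := by omega
  rw [ht]
  have hA : 0 ≤ (D + k - f) ^ 2 - (D + k - f) := by
    rcases le_or_gt (D + k - f) 0 with g | g
    · nlinarith
    · nlinarith
  rcases q1 with rfl | rfl | rfl
  · linarith
  · have q3 : k = 0 ∨ k = 1 := by omega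
    rcases q2 with rfl | rfl <;> rcases q3 with rfl | rfl <;> ring_nf <;> linarith
  · have q3 : k = 0 := by omega
    subst q3
    rcases q2 with rfl | rfl <;> ring_nf <;> linarith

section nj

variable (h : NJ P r j) (hij : i + 1 = j) (hi1 : 1 ≤ i)
include h hij hi1

/-- the covers of a three site element, at most three sites -/
theorem small_ZL_uc {t : Tops P} (Cm : Cp.Comp (i + 1) (t : P) lo hi e) (h3 : hi i ≤ lo i + 2)
    (hz : z ∈ ZL i (SS i t)) : hi i = lo i + 2 ∧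
      uc z = {e (i + 1) (lo i + 1), e (i + 1) (lo i + 2)} := by
  classical
  have H := h.g.H
  have g : GoodTo P r (i + 1) := by rw [hij]; exact h.g
  have W := Cm.toWin
  have hC : Part (i + 1) (SS i t) := h.part (by omega) (by omega) t
  obtain ⟨m1, m2, m3⟩ := mem_ZL.1 hz
  have hc := card_uc_of_up H m2 m3
  obtain ⟨c, d, hcd, hu⟩ := card_eq_two.1 hc
  have e1 : sts i z = uc c ∪ uc d := by
    rw [Rd.sts_bi H m2, hu, biUnion_insert, singleton_biUnion]
  have e2 : (uc c ∪ uc d).card = 3 := by rw [← e1, card_sts, m3]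
  have b1 := uc_card_le H c
  have b2 := uc_card_le H d
  have c1 := card_union_add_card_inter (uc c) (uc d)
  have hT := h.noTT hij hi1
  have mc : c ∈ uc z := by rw [hu]; simp
  have md : d ∈ uc z := by rw [hu]; simp
  have h7 : 1 ≤ (uc c ∩ uc d).card := by
    by_cases h8 : (uc c).card = 2
    · obtain ⟨x, hx1, hx2⟩ := hT z m2 c mc d md hcd h8
      exact card_pos.2 ⟨x, mem_inter.2 ⟨hx1, hx2⟩⟩
    · obtain ⟨x, hx1, hx2⟩ := hT z m2 d md c mc hcd.symm (by omega)
      exact card_pos.2 ⟨x, mem_inter.2 ⟨hx2, hx1⟩⟩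
  have d1 : (uc c).card = 2 := by omega
  have d2 : (uc d).card = 2 := by omega
  have lc := lev_uc H mc
  have ld := lev_uc H md
  have tc := (h.mem (i := i) (by omega) t (y := c) (by omega)).1 (hC.up m1 (mem_uc.1 mc))
  have td := (h.mem (i := i) (by omega) t (y := d) (by omega)).1 (hC.up m1 (mem_uc.1 md))
  obtain ⟨s, s1, s2, rfl⟩ := W.surj (i + 1) le_rfl c (by omega) tc
  obtain ⟨s', s1', s2', rfl⟩ := W.surj (i + 1) le_rfl d (by omega) td
  have f1 := (W.uc_two g t.2 (k := i) (by omega) s1 s2).1 d1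
  have f2 := (W.uc_two g t.2 (k := i) (by omega) s1' s2').1 d2
  have hss : s ≠ s' := by
    rintro rfl
    exact hcd rfl
  refine ⟨by omega, ?_⟩
  rw [hu]
  have hcase : (s = lo i + 1 ∧ s' = lo i + 2) ∨ (s = lo i + 2 ∧ s' = lo i + 1) := by omega
  rcases hcase with ⟨q1, q2⟩ | ⟨q1, q2⟩
  · rw [q1, q2]
  · rw [q1, q2, pair_comm]

/-- the number of the three site elements below of a natural part, at most three sites -/
theorem small_ZL {t : Tops P} (hn : NatT j (t : P)) (Cm : Cp.Comp (i + 1) (t : P) lo hi e)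
    (h3 : hi i ≤ lo i + 2) : (ZL i (SS i t)).card ≤ (ZU i (SS i t)).card := by
  classical
  have H := h.g.H
  have g : GoodTo P r (i + 1) := by rw [hij]; exact h.g
  have W := Cm.toWin
  have hU := W.card_ZU g t.2 hi1 (by omega) (S := SS i t)
    (fun y hy => h.mem (i := i) (by omega) t (by omega))
  rcases (ZL i (SS i t)).eq_empty_or_nonempty with h0 | ⟨z, hz⟩
  · rw [h0, card_empty]
    exact Nat.zero_le _
  obtain ⟨k1, k2⟩ := small_ZL_uc h hij hi1 Cm h3 hz
  have h1 : (ZL i (SS i t)).card ≤ 1 := by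
    rw [card_le_one]
    intro a ha b hb
    obtain ⟨-, a2⟩ := small_ZL_uc h hij hi1 Cm h3 ha
    obtain ⟨-, b2⟩ := small_ZL_uc h hij hi1 Cm h3 hb
    have c1 := W.lo_ge i (by omega)
    have c2 := W.hi_le i (by omega)
    have l1 := W.lev_x (i + 1) le_rfl (lo i + 1) (by omega) (by omega)
    have l2 := W.lev_x (i + 1) le_rfl (lo i + 2) (by omega) (by omega)
    have hne : e (i + 1) (lo i + 1) ≠ e (i + 1) (lo i + 2) := fun he => by
      have := W.inj' (k := i + 1) le_rfl (by omega) (by omega) (by omega) (by omega) he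
      omega
    exact nat_twin h hij hi1 hn (mem_ZL.1 ha).1 hne (by omega) (by omega)
      (mem_uc.1 (by rw [a2]; simp)) (mem_uc.1 (by rw [a2]; simp))
      (mem_uc.1 (by rw [b2]; simp)) (mem_uc.1 (by rw [b2]; simp))
  omega

/-- the private children of the pendant are the elements `FL` -/
theorem small_kc {t : Tops P} (hp : p ∈ PD P i) (ht : (topOf p : Tops P) = t) :
    kc p = ((FL i (SS i t)).card : ℤ) := by
  classical
  have H := h.g.H
  have lp := (mem_PD.1 hp).1
  have hpS : p ∈ SS i t := by rw [← ht]; exact nj_mem h hij hi1 lp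
  have hC : Part (i + 1) (SS i t) := h.part (by omega) (by omega) t
  obtain ⟨n1, -, -⟩ := nj_one h hij hi1 t
  rw [card_le_one] at n1
  rw [Pf.nj_kc h hij hi1 t hpS lp]
  congr 2
  ext x
  rw [mem_FLo, mem_FL]
  constructor
  · rintro ⟨h1, h2⟩
    exact ⟨h1, p, hp, h2⟩
  · rintro ⟨h1, q, hq, h2⟩
    refine ⟨h1, ?_⟩
    have hqS : q ∈ SS i t := hC.up h1 (mem_uc.1 (by rw [h2]; simp))
    have := n1 q (mem_filter.2 ⟨hqS, hq⟩) p (mem_filter.2 ⟨hpS, hp⟩)
    rw [h2, this]

/-- the values of the window `j - 1`: natural, at most three sites, no flip -/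
theorem small_vals {t : Tops P} (hn : NatT j (t : P)) (h3 : (st i (SS i t)).card ≤ 3)
    (hF : F5 i (SS i t) = ∅) : B5 i t = 0 ∧
      C6 i t = A3 i t ^ 2 + 2 * ((N1f i (SS i t)).card : ℤ) ∧ C8 i t = 0 ∧ C10 i t = 0 := by
  classical
  have hT := nat_Tws h hij hi1 hn
  obtain ⟨-, v5, v6, v8, v10⟩ := W1.vals_open h hij hi1 t hT hF
  have hQ := nj_QQ_three h hij hi1 t h3 hF
  have hN := nj_N5_three h hij hi1 t h3
  rw [hQ, hN, card_empty] at v6
  rw [hN, card_empty] at v10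
  refine ⟨v5, ?_, v8, ?_⟩
  · unfold C6 A3
    rw [v6]
    push_cast
    ring
  · unfold C10
    rw [v10]
    norm_num

/-- the net value of the pendant: natural, at most three sites, no flip -/
theorem small_net {t : Tops P} (hn : NatT j (t : P)) (h3 : (st i (SS i t)).card ≤ 3)
    (hF : F5 i (SS i t) = ∅) (hp : p ∈ PD P i) (ht : (topOf p : Tops P) = t) :
    rho i (topOf : P → Tops P) 5 p - A3 i (topOf p) = -A3 i t ∧
      rho i (topOf : P → Tops P) 7 p - B5 i (topOf p) = 0 := by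
  classical
  subst ht
  have H := h.g.H
  have hC : Part (i + 1) (SS i (topOf p)) := h.part (by omega) (by omega) _
  have n5 := nj_net5 h hij hi1 hp hF
  have n7 := nj_net7 h hij hi1 hp
  have a3 := nj_al3 h hij hi1 _ hF
  have hT := nat_Tws h hij hi1 hn
  have lp := (mem_PD.1 hp).1
  have hpS : p ∈ SS i (topOf p) := nj_mem h hij hi1 lp
  have hsp : (sit i p).Nonempty := sit_PD_ne H hp
  have hsub : sit i p ⊆ st i (SS i (topOf p)) := SO.sit_part H hC hpS
  have full : ∀ z ∈ SS i (topOf p), (sit i z).card = 3 → ¬ Disjoint (sit i z) (sit i p) := by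
    intro z hz hc hd
    have h1 : sit i z = st i (SS i (topOf p)) :=
      eq_of_subset_of_card_le (SO.sit_part H hC hz) (by omega)
    obtain ⟨s, hs⟩ := hsp
    rw [h1] at hd
    exact disjoint_left.1 hd (hsub hs) hs
  have fL : (ZL i (SS i (topOf p))).filter (fun z => ¬ Disjoint (sit i z) (sit i p)) =
      ZL i (SS i (topOf p)) := by
    refine filter_true_of_mem fun z hz => ?_
    obtain ⟨k1, k2, k3⟩ := mem_ZL.1 hz
    exact full z k1 (by rw [sit_low H (by omega), card_sts]; exact k3)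
  have fU : (ZU i (SS i (topOf p))).filter (fun z => ¬ Disjoint (sit i z) (sit i p)) =
      ZU i (SS i (topOf p)) := by
    refine filter_true_of_mem fun z hz => ?_
    obtain ⟨k1, k2, k3⟩ := mem_ZU.1 hz
    exact full z k1 (by rw [sit_upp H (by omega), card_stD]; exact k3)
  rw [fL, fU] at n5
  rw [hT, hF] at n7
  refine ⟨?_, ?_⟩
  · unfold A3
    rw [n5, a3]
    ring
  · unfold B5
    rw [n7]
    simp

/-- THE VALUE of a natural part with at most three sites, no flip (twice): it is nonnegative -/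
theorem small_nonneg {t : Tops P} (hn : NatT j (t : P)) (h3 : (st i (SS i t)).card ≤ 3)
    (hF : F5 i (SS i t) = ∅) : 0 ≤ 2 * own ⟨-1, 9, 1, 4, 3, -1, 2, 13, 0⟩ i j t +
      ∑ p ∈ (PD P i).filter (fun p => (topOf p : Tops P) = t),
        shr ⟨-1, 9, 1, 4, 3, -1, 2, 13, 0⟩ i p := by
  classical
  have H := h.g.H
  have g : GoodTo P r (i + 1) := by rw [hij]; exact h.g
  obtain ⟨lo, hi, e, Cm⟩ := Cp.comp_exists g.H t.2 g.hr g.good
  have W := Cm.toWin
  have L : Laws3 lo hi (i + 1) := laws3 (SO_holds P r) g Cm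
  have hcs := h.card_SS (i := i) (by omega) (C := (by rw [← hij]; exact Cm))
  have hle := W.lohi i (by omega)
  have hV : hi i ≤ lo i + 2 := by omega
  obtain ⟨v5, v6, v8, v10⟩ := small_vals h hij hi1 hn h3 hF
  have hw := EK.NJ.nat_own2 h (by omega) hn
  have ho : own ⟨-1, 9, 1, 4, 3, -1, 2, 13, 0⟩ i j t = -A3 i t + (A3 i t ^ 2 +
      2 * ((N1f i (SS i t)).card : ℤ)) + (-F2 j t + 2 * F4 j t + 13 * F3 j t) := by
    unfold own
    rw [v5, v6, v8, v10]
    ring
  have hN : (0 : ℤ) ≤ (N1f i (SS i t)).card := Nat.cast_nonneg _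
  have hA : 0 ≤ A3 i t ^ 2 - A3 i t := by
    rcases le_or_gt (A3 i t) 0 with k | k
    · nlinarith
    · nlinarith
  rcases ((PD P i).filter (fun p => (topOf p : Tops P) = t)).eq_empty_or_nonempty with h0 | ⟨p, hp⟩
  · rw [h0, sum_empty, ho]
    linarith
  obtain ⟨hpD, hpt⟩ := mem_filter.1 hp
  -- only one pendant
  have hone : (PD P i).filter (fun p => (topOf p : Tops P) = t) = {p} := by
    rw [eq_singleton_iff_unique_mem]
    refine ⟨hp, fun q hq => ?_⟩
    obtain ⟨hqD, hqt⟩ := mem_filter.1 hq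
    exact nj_hone h hij hi1 q hqD p hpD (by rw [hqt, hpt])
  obtain ⟨w5, w7⟩ := small_net h hij hi1 hn h3 hF hpD hpt
  obtain ⟨f1, f2⟩ := small_nn h hij hi1 Cm L hF hV hpD hpt
  have hk := small_kc h hij hi1 hpD hpt
  have hzk := Pf.nj_zc_kc h hij hi1 (mem_PD.1 hpD).1
  have a3 : A3 i t = ((ZU i (SS i t)).card : ℤ) - (ZL i (SS i t)).card +
      (FL i (SS i t)).card - (FU' i (SS i t)).card := nj_al3 h hij hi1 t hF
  have hZ := small_ZL h hij hi1 hn Cm hV
  have hFU := W.card_FU g t.2 (i := i) (by omega) (S := SS i t)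
    (fun y hy => h.mem (i := i) (by omega) t (by omega))
  have hS : ∑ z ∈ zs i (topOf : P → Tops P) p, kc z ≤
      2 * zc i (topOf : P → Tops P) p := by
    have h1 : ∀ z ∈ zs i (topOf : P → Tops P) p, kc z ≤ 2 := by
      intro z _
      have h2 : ks z ⊆ dc z := fun y hy => mem_dc.2 (mem_uc.1 (by rw [mem_ks.1 hy]; simp))
      have h3 := (card_le_card h2).trans (dc_card_le H z)
      unfold kc
      exact_mod_cast h3
    have h2 := Finset.sum_le_sum h1
    rw [sum_const, nsmul_eq_mul] at h2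
    unfold zc
    linarith
  rw [hone, sum_singleton, ho]
  unfold shr
  rw [w5, w7]
  have hz0 : 0 ≤ zc i (topOf : P → Tops P) p := Nat.cast_nonneg _
  have hk0 : 0 ≤ kc p := Nat.cast_nonneg _
  have hfu : ((FU' i (SS i t)).card : ℤ) = (Wd.fuw lo hi i : ℤ) := by exact_mod_cast hFU
  have hZ' : ((ZL i (SS i t)).card : ℤ) ≤ (ZU i (SS i t)).card := by exact_mod_cast hZ
  have f1' : (Wd.fuw lo hi i : ℤ) ≤ 1 := by exact_mod_cast f1
  have f0 : (0 : ℤ) ≤ (Wd.fuw lo hi i : ℤ) := Nat.cast_nonneg _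
  rw [← hk, hfu] at a3
  have htw : ((1 : ℤ) - 4 + 3) * ∑ z ∈ zs i (topOf : P → Tops P) p,
      ((tw i (topOf : P → Tops P) z).card : ℤ) = 0 := by norm_num
  rw [htw]
  obtain ⟨D, hD⟩ : ∃ D : ℤ, D = ((ZU i (SS i t)).card : ℤ) - (ZL i (SS i t)).card := ⟨_, rfl⟩
  rw [← hD] at a3
  have hD0 : 0 ≤ D := by linarith
  rw [a3]
  exact small_arith hD0 hk0 f0 f1' f2 hz0 hzk hS hN hw rfl

end nj

end Pool.Agent.GaussPoset.Win.Pn
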