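import Pool.Agent.W_448nv_h97.NvD
import Pool.Agent.W_448na_h84.NaC
import Pool.Agent.W_448pn_h63.QcC

/-!
MP_448cb3_co, G2, case B: THE VALUE OF THE NATURAL PARTS for the weights `Wsh`, all sizes.  helper97.
-/

set_option autoImplicit false

namespace Pool.Agent.GaussPoset.EK

set_option linter.unusedSectionVars false

open Finset Win St Polynomial Wd Win.W4

universe u

variable {P : Type u} [Fintype P] [PartialOrder P] [DecidableEq P] {r i j : ℕ}
  {t : Tops P} {m : ℕ} {x : ℕ → P} {c : ℕ → ℤ} {β : ℤ}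

/-- THE VALUE of a natural part -/
theorem NJ.nat_all (h : NJ P r j) (hij : i + 1 = j) (hi1 : 1 ≤ i) {lo hi : Tops P → ℕ → ℕ}
    {e : Tops P → ℕ → ℕ → P} (C : ∀ t : Tops P, Cp.Comp (i + 1) (t : P) (lo t) (hi t) (e t))
    (hS : ∀ t : Tops P, Shape (i + 1) (lo t) (hi t)) (B : RowB P j t m x c β)
    (hβ : β = 0) (hc : ∀ k, k < m → c k = 0) :
    0 ≤ 2 * Pn.own ⟨-1, 9, 1, 4, 3, -1, 2, 13, 0⟩ i j t +
      ∑ p ∈ (PD P i).filter (fun p => (topOf p : Tops P) = t),
        Pn.shr ⟨-1, 9, 1, 4, 3, -1, 2, 13, 0⟩ i p := by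
  classical
  have hn : NatT j (t : P) := RowB.nat_of h B hc hβ
  rcases Nat.lt_or_ge (st i (SS i t)).card 4 with h4 | h4
  · rcases Finset.eq_empty_or_nonempty (SO.F5 i (SS i t)) with hF | hF
    · exact Pn.small_nonneg h hij hi1 hn (by omega) hF
    · exact Pf.nat_flip h hij hi1 C hS hn hF.ne_empty
  · exact Wd.NJ.nat_big h hij hi1 B hβ hc h4

end Pool.Agent.GaussPoset.EK
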