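import Pool.Agent.W_448nv_h97.NvE
import Pool.Agent.W_448fin_h16.FnQ

/-!
MP_448cb3_co, G2, case B: THE LEAF `HNat` (helper16's `FnQ`).  helper97.
-/

set_option autoImplicit false

namespace Pool.Agent.GaussPoset.EK

set_option linter.unusedSectionVars false

open Finset Win St Polynomial Wd Win.W4

universe u

variable (P : Type u) [Fintype P] [PartialOrder P] [DecidableEq P]

/-- THE LEAF: natural rows -/
theorem hnat : HNat P := by
  intro r i t m x c β hi1 h B hβ hc
  obtain ⟨lo, hi, e, C, hS⟩ := hsh (P := P) r (i + 1) h.nj.g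
  exact NJ.nat_all h.nj rfl hi1 C hS B hβ hc

end Pool.Agent.GaussPoset.EK
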